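import Pool.Agent.Helper42.RD.Goals2

/-!
# Project RD (MP_fc6b1e_nt): the action on the roots of unity of `p`-power order
-/

namespace Pool.Agent.Helper72.RD

open NumberField Polynomial Module IsDedekindDomain TensorProduct Pool.Agent.Helper51.SigLeo
open Pool.Agent.Helper51.RP Pool.Agent.Helper42.RD

/-- every root of unity of `H` is a power of one element -/
theorem exists_gen (H : Type) [Field H] [NumberField H] :
    ∃ (g : H) (t : ℕ), 0 < t ∧ g ^ t = 1 ∧ ∀ (ξ : H) (k : ℕ), 0 < k → ξ ^ k = 1 →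
      ∃ j : ℕ, ξ = g ^ j := by
  obtain ⟨g0, hg0⟩ := IsCyclic.exists_generator (α := NumberField.Units.torsion H)
  have hfin : IsOfFinOrder g0 := isOfFinOrder_of_finite g0
  obtain ⟨t, ht, hgt⟩ := isOfFinOrder_iff_pow_eq_one.1 hfin
  refine ⟨((g0 : (𝓞 H)ˣ) : 𝓞 H), t, ht, ?_, ?_⟩
  · have h1 : ((g0 : (𝓞 H)ˣ)) ^ t = 1 := by
      have := congrArg (Subtype.val) hgt
      simpa using this
    have h2 : (((g0 : (𝓞 H)ˣ) : 𝓞 H)) ^ t = 1 := by
      rw [← Units.val_pow_eq_pow_val, h1, Units.val_one]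
    have h3 := congrArg (algebraMap (𝓞 H) H) h2
    simpa using h3
  · intro ξ k hk hξ
    have hint : IsIntegral ℤ ξ := IsIntegral.of_pow hk (by rw [hξ]; exact isIntegral_one)
    let x : 𝓞 H := ⟨ξ, hint⟩
    have hx : x ^ k = 1 := by
      apply RingOfIntegers.ext
      show (algebraMap (𝓞 H) H) (x ^ k) = (algebraMap (𝓞 H) H) 1
      rw [map_pow, map_one]
      exact hξ
    let u : (𝓞 H)ˣ := Units.ofPowEqOne x k hx hk.ne'
    have hu : u ^ k = 1 := by
      ext
      simp only [Units.val_pow_eq_pow_val, Units.val_one]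
      exact congrArg _ hx
    have hmem : u ∈ NumberField.Units.torsion H := by
      rw [NumberField.Units.torsion, CommGroup.mem_torsion]
      exact isOfFinOrder_iff_pow_eq_one.2 ⟨k, hk, hu⟩
    have h4 := hg0 ⟨u, hmem⟩
    rw [← mem_powers_iff_mem_zpowers] at h4
    obtain ⟨j, hj⟩ := h4
    refine ⟨j, ?_⟩
    have h5 : ((g0 : (𝓞 H)ˣ)) ^ j = u := by
      have := congrArg (Subtype.val) hj
      simpa using this
    have h6 : (((g0 : (𝓞 H)ˣ) : 𝓞 H)) ^ j = x := by
      rw [← Units.val_pow_eq_pow_val, h5]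
      rfl
    have h7 := congrArg (algebraMap (𝓞 H) H) h6
    have h8 : algebraMap (𝓞 H) H x = ξ := rfl
    rw [h8, map_pow] at h7
    exact h7.symm

theorem pow_act {K H : Type} [Field K] [Field H] [Algebra K H] (δ : H ≃ₐ[K] H) {ξ : H} {i : ℕ}
    (h : δ ξ = ξ ^ i) (j : ℕ) : (δ ^ j) ξ = ξ ^ (i ^ j) := by
  induction j with
  | zero => simp
  | succ j ih =>
    rw [pow_succ, AlgEquiv.mul_apply, h, map_pow, ih, ← pow_mul, ← pow_succ]

theorem e_tor : E_TOR := by
  intro p hp k _ _ m ζ Φ P hPhi K H _ _ _ _ δ hδ hfix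
  have hp1 : 1 < p := hp.out.one_lt
  by_cases hprim : ∃ ξ : H, IsPrimitiveRoot ξ p
  · obtain ⟨ξ₀, hξ₀⟩ := hprim
    obtain ⟨g, t, ht, hgt, hg⟩ := exists_gen H
    have hδg : (δ g) ^ t = 1 := by rw [← map_pow, hgt, map_one]
    obtain ⟨i, hi⟩ := hg (δ g) t ht hδg
    have hact : ∀ (ξ : H) (k : ℕ), 0 < k → ξ ^ k = 1 → δ ξ = ξ ^ i := by
      intro ξ k hk hξ
      obtain ⟨j, hj⟩ := hg ξ k hk hξ
      rw [hj, map_pow, hi, ← pow_mul, ← pow_mul, mul_comm]
    refine ⟨i, ?_, fun ξ n hξ => hact ξ _ (pow_pos hp.out.pos n) hξ⟩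
    intro hP
    have hδξ := hact ξ₀ p hp.out.pos hξ₀.pow_eq_one
    have hcong : ∀ a b : ℕ, ξ₀ ^ a = ξ₀ ^ b → (a : ZMod p) = (b : ZMod p) := by
      intro a b hab
      have hne : ξ₀ ≠ 0 := hξ₀.ne_zero hp.out.ne_zero
      have h1 : ξ₀ ^ ((a : ℤ) - (b : ℤ)) = 1 := by
        rw [zpow_sub₀ hne, zpow_natCast, zpow_natCast, hab, div_self (pow_ne_zero _ hne)]
      have h2 := (hξ₀.zpow_eq_one_iff_dvd _).1 h1
      have h3 := (ZMod.intCast_zmod_eq_zero_iff_dvd ((a : ℤ) - b) p).2 h2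
      push_cast at h3
      exact sub_eq_zero.1 h3
    have him : (i : ZMod p) ^ m = 1 := by
      have h2 := pow_act δ hδξ m
      rw [hδ, AlgEquiv.one_apply] at h2
      have h3 := hcong 1 (i ^ m) (by rw [pow_one]; exact h2)
      push_cast at h3
      exact h3.symm
    have hm0 : 0 < m := lt_trans one_pos hPhi.one_lt
    have hfin : IsOfFinOrder (i : ZMod p) := isOfFinOrder_iff_pow_eq_one.2 ⟨m, hm0, him⟩
    have hdvd : orderOf (i : ZMod p) ∣ m := orderOf_dvd_of_pow_eq_one him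
    have hpos : 0 < orderOf (i : ZMod p) := hfin.orderOf_pos
    have heq : orderOf (i : ZMod p) = m := by
      by_contra hne
      have hlt : orderOf (i : ZMod p) < m := lt_of_le_of_ne (Nat.le_of_dvd hm0 hdvd) hne
      obtain ⟨a, b, hab⟩ := hPhi.cop _ hpos hlt hdvd
      have h4 := congrArg (Polynomial.eval (i : ZMod p)) hab
      rw [eval_add, eval_mul, eval_mul, hP, eval_sub, eval_pow, eval_X, eval_one,
        pow_orderOf_eq_one] at h4
      simp at h4
    obtain ⟨e, he0, hem, he⟩ := hfix ξ₀ hξ₀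
    rw [pow_act δ hδξ e] at he
    have h5 := hcong (i ^ e) 1 (by rw [pow_one]; exact he)
    push_cast at h5
    have h6 := orderOf_dvd_of_pow_eq_one h5
    rw [heq] at h6
    exact absurd (Nat.le_of_dvd he0 h6) (not_le.2 hem)
  · refine ⟨1, ?_, ?_⟩
    · intro hP
      rw [Nat.cast_one] at hP
      obtain ⟨a, b, hab⟩ := hPhi.cop 1 one_pos hPhi.one_lt (one_dvd _)
      have h4 := congrArg (Polynomial.eval (1 : ZMod p)) hab
      rw [eval_add, eval_mul, eval_mul, hP, eval_sub, eval_pow, eval_X, eval_one] at h4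
      simp at h4
    · intro ξ n hξ
      have h1 : ξ = 1 := by
        induction n with
        | zero => simpa using hξ
        | succ n ih =>
          apply ih
          by_contra hne
          apply hprim
          refine ⟨ξ ^ p ^ n, ?_⟩
          have h2 : (ξ ^ p ^ n) ^ p = 1 := by rw [← pow_mul, ← pow_succ]; exact hξ
          exact (IsPrimitiveRoot.iff_orderOf).2 (orderOf_eq_prime h2 hne)
      rw [h1]; simp

end Pool.Agent.Helper72.RD
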